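import Pool.Agent.NH56.HL.Main

/-!
# Local Euler factors of hyper-Kähler varieties in even degrees, at all places

**Theorem.** Let `X` be a projective hyper-Kähler variety, of arbitrary deformation type, over a number
field `K`, let `v` be a place of `K`, of arbitrarily bad reduction, and suppose that the local behaviour
at `v` of the second cohomology of `X` is known: weight monodromy, and the traces of the elements of the
Weil group of positive degree are rational and independent of `ℓ`. If the second Betti number `b₂` is odd
(or if Galois acts on `H^2(X)` with determinant `χ ^ b₂`) then for all even `j` the local Euler factor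
`det (1 - F_v T | H^j(X, ℚ_ℓ) ^ {I_v})` has coefficients in `ℤ` and is independent of `ℓ`, and inertia
acts potentially unipotently on `H^j(X, ℚ_ℓ)`, uniformly in `ℓ`.

What is assumed on the second cohomology is known in many cases: over a finite extension of `K` (Kuga and
Satake, with the theorems on abelian varieties of Grothendieck and Noot), at all places of potentially
good reduction, and whenever `H^2(X)` is up to classes of divisors the part of an even cohomology
of a surface or of a cubic fourfold (Rapoport and Zink, Ochiai, T. Saito). For the higher cohomology of a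
hyper-Kähler variety of arbitrary deformation type no relation with abelian varieties is known, and
neither weight monodromy nor independence of `ℓ` was known at the bad places.

Proof. Let `δ` be the action of `so(q)` on `H^*(X)` found by Looijenga, Lunts and Verbitsky and `E` its
commutant, a semisimple algebra. (1) For an ordinary Frobenius element `g` near `1` the valuations of
the eigenvalues give an operator which comes from `δ`; so (Kolchin, Sen, class field theory, see
`Pool.Agent.NH56.HY`) an open subgroup of the Galois group commutes with `E`, and acts on the images of the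
idempotents of `E` with the expected determinants. It follows that for all `g` in the Galois group and all
additive functions `φ` on `ℂˣ` the operator `φ(g)` on `H^*(X)` comes from `φ(g)` on `H^2(X)` by `δ`. For
`φ` the logarithm of the absolute value, `g` a Frobenius element at `v`, this is the operator of weights,
and the same is true for the monodromy operator: so the `sl₂`-triple in `so(q)` given by weight
monodromy on `H^2(X)` gives weight monodromy on `H^*(X)`. (2) The semisimple part of `g` on `H^j(X)`, `j`
even, is the product of `κ ^ (j / 2)`, of the lift of an element `t` of `SO(q)`, and of an element `w` of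
`E` of finite order, bounded independently of `g`. As `t` has the eigenvalue `1`, it lies in a torus of
`SO(q)` with Weyl group of type `B`, all elements of which can be lifted and commute with `w`; and the
weights of this torus on `H^j(X)` are integral (by conjugation with the Hodge operator). So the trace of `g`
on `H^j(X)` is `κ ^ (j / 2) G(p₁, p₂, …)`, `p_k` the trace of `t ^ k`, with one of finitely many
polynomials `G`, which may be taken with rational coefficients if `g` is a Frobenius element at a good
place. By Chebotarev's theorem the finitely many closed conditions, for two primes `ℓ`, cover the whole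
Galois group. So the trace of an element of the Weil group at `v` on `H^j(X)` is rational and
independent of `ℓ`. (3) With (1) this gives the local factors (as in MonodromyTransfer).
-/

set_option autoImplicit false

namespace Pool.Agent.Results.MP_898f40_nt.HyperKahlerEulerFactors

open Matrix Polynomial NumberField IsDedekindDomain Pool.Agent.NH56.HY Pool.Agent.NH56.HO
  Pool.Agent.NH56.HL

/-- **Local Euler factors of hyper-Kähler varieties in even degrees**, at the places `v` at which the
second cohomology is known. -/
theorem result (K : Type) [Field K] [NumberField K]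
    -- the hyper-Kähler variety
    (ι : Type) [Fintype ι] [DecidableEq ι] (X : Coh ι) (hX : IsHyperKahler X)
    -- the `ℓ`-adic realizations, for all `ℓ`
    (S : ∀ (ℓ : ℕ) [Fact ℓ.Prime], Finset ℕ) (χ : ∀ (ℓ : ℕ) [Fact ℓ.Prime], GK K →* ℚ_[ℓ])
    (Pol : HeightOneSpectrum (𝓞 K) → ℕ → ℤ[X])
    (ρ : ∀ (ℓ : ℕ) [Fact ℓ.Prime], GK K →* Matrix ι ι ℚ_[ℓ])
    (hρ : ∀ (ℓ : ℕ) [Fact ℓ.Prime], IsRealization X (S ℓ) (χ ℓ) Pol (ρ ℓ))
    (hHT : ∀ (ℓ : ℕ) [Fact ℓ.Prime], IsHodgeTate X (ρ ℓ))
    (hO : ∀ (ℓ : ℕ) [Fact ℓ.Prime], Orient X (χ ℓ) (ρ ℓ))
    -- the place, and the known properties of the second cohomology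
    (v : HeightOneSpectrum (𝓞 K)) (Q : Ideal (𝓞 (AlgebraicClosure K))) (hQ : Above v Q)
    (U₀ : Subgroup (GK K)) (hv : KnownTwo X χ ρ v Q U₀) (j : ℕ) (hj : Even j) :
    (∃ U : Subgroup (GK K), IsOpen (U : Set (GK K)) ∧ ∀ (ℓ : ℕ) [Fact ℓ.Prime],
      (ℓ : 𝓞 K) ∉ v.asIdeal → ∀ g ∈ U, g ∈ inertia Q → IsNilpotent (blk X.deg j (ρ ℓ g) - 1)) ∧
    ∀ g, FrobeniusAt Q (Ideal.absNorm v.asIdeal) g⁻¹ → ∃ P : ℤ[X], ∀ (ℓ : ℕ) [Fact ℓ.Prime],
      (ℓ : 𝓞 K) ∉ v.asIdeal → ∀ f : ℚ_[ℓ][X],
        IsLocalFactor (fun g => blk X.deg j (ρ ℓ g)) Q g f ↔ f = P.map (Int.castRingHom ℚ_[ℓ]) :=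
  main K ι X S χ Pol ρ hX hρ hHT hO v Q U₀ hQ hv j hj

end Pool.Agent.Results.MP_898f40_nt.HyperKahlerEulerFactors
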