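import Pool.Agent.NH57.WM.Fin

/-!
# Local Euler factors, transferred from another motive, at places with monodromy

Let `K` be a number field (for example `ℚ`) and let `V_ℓ` and `W_ℓ`, for all primes `ℓ`, be the
`ℓ`-adic realisations, in degrees of the same weight `w`, of two motives `M` and `N` over `K`. At
the places `v` outside a finite set the difference `a_v` of the traces of the geometric Frobenius
elements on `V_ℓ` and `W_ℓ` is a rational number which does not depend on `ℓ`, and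
`a_v ^ 2 ≤ C N(v) ^ w` (Deligne; Katz and Messing). Suppose that the traces for `M` and `N` are
close to each other at most places: for a positive integer `d`, the number `d a_v ^ 2` is an
integral multiple of `N(v) ^ w` for `v` in a set of upper density larger than
`1 - 1 / (n ^ 2 + m ^ 2)`, where `n` and `m` are the ranks. (For example the traces are equal, or
congruent modulo `N(v) ^ (w / 2)`, at most places.)

Nothing is assumed about `V_ℓ` at the places of bad reduction. The representations `W_ℓ` are assumed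
to be semisimple, and we consider the places `v`, of *arbitrarily bad reduction*, at which the local
behaviour of `N` is known: over a finite extension the inertia group acts unipotently; the traces of
the elements of the Weil group of positive degree are rational and do not depend on `ℓ`; the
geometric Frobenius elements are integral; and the weights on the inertia invariants are at most `w`,
those on the coinvariants at least `w` (as predicted by the weight monodromy conjecture). All this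
is known if `N` is a sum of tensor constructions of abelian varieties.

Then at all these places the local factor `det (1 - F_v T | V_ℓ ^ I_v)` of `M` is a polynomial with
coefficients in `ℤ` which does not depend on `ℓ`, and `V_ℓ` becomes unipotent on inertia over the
compositum of a finite extension of `K` independent of `v` and the extension for `N`.

Proof. Chebotarev's theorem for closed sets, Burnside's counting argument and the trace form show
that the difference of the traces on `V_ℓ (w / 2)` and `W_ℓ (w / 2)` is constant on the cosets of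
an open subgroup `U`, which is independent of `ℓ`. On `U` the annihilator in the group algebra of a
vector of `V_ℓ` annihilates a vector of `W_ℓ` or of `ℚ_ℓ (- w / 2)`. So inertia is potentially
unipotent on `V_ℓ`, the weights on `S = V_ℓ ^ {I_v ∩ U}` are at most `w`, and those on the
coinvariants at least `w`. The tame quotient of inertia is procyclic, which gives a monodromy
operator `N` with kernel `S` and `N G = Q G N` for elements `G` of the Weil group, acting on `V_ℓ`.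
It follows that the trace of `G` on `S` is the sum of the eigenvalues of `G` of weight at most `w`
minus the same sum for `Q G`. So it only depends on the traces of the powers of `G` on `V_ℓ`; these
are rational and independent of `ℓ`. Averages of these traces are the traces of the powers of `F_v`
on `V_ℓ ^ {I_v}`. The coefficients of the local factor are integral, and have the same image under
all embeddings `ℚ_ℓ → ℂ` and for all `ℓ`.
-/

set_option autoImplicit false

namespace Pool.Agent.Results.MP_898f40_nt.MonodromyTransfer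

open NumberField IsDedekindDomain Filter Matrix Polynomial

/-- the absolute Galois group of the field `K`, with the Krull topology -/
abbrev AbsGal (K : Type) [Field K] : Type := Gal(AlgebraicClosure K/K)

section
variable {K : Type} [Field K]

/-- `g` belongs to the inertia group at the ideal `Q` of the ring of all algebraic integers. -/
def InInertia (Q : Ideal (𝓞 (AlgebraicClosure K))) (g : AbsGal K) : Prop :=
  ∀ x : 𝓞 (AlgebraicClosure K), g • x - x ∈ Q

/-- `g` acts on the residue field of `Q` as `x ↦ x ^ q`. If the place below `Q` has a residue field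
with `q` elements these are the arithmetic Frobenius elements at `Q`. -/
def FrobeniusAt (Q : Ideal (𝓞 (AlgebraicClosure K))) (q : ℕ) (g : AbsGal K) : Prop :=
  ∀ x : 𝓞 (AlgebraicClosure K), g • x - x ^ q ∈ Q

/-- `Q` is a maximal ideal of the ring of all algebraic integers which lies above the finite
place `v` of `K`. -/
def LiesAbove [NumberField K] (v : HeightOneSpectrum (𝓞 K))
    (Q : Ideal (𝓞 (AlgebraicClosure K))) : Prop :=
  Q.IsMaximal ∧ Q.comap (algebraMap (𝓞 K) (𝓞 (AlgebraicClosure K))) = v.asIdeal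

/-- the matrix of `g` -/
noncomputable def mat {F : Type} [Field F] {n : ℕ} (ρ : AbsGal K →* GL (Fin n) F) (g : AbsGal K) :
    Matrix (Fin n) (Fin n) F :=
  (ρ g : GL (Fin n) F)

/-- the vectors which are fixed by the inertia group at `Q` -/
def invariants {F : Type} [Field F] {n : ℕ} (ρ : AbsGal K →* GL (Fin n) F)
    (Q : Ideal (𝓞 (AlgebraicClosure K))) : Submodule F (Fin n → F) where
  carrier := {x | ∀ g, InInertia Q g → mat ρ g *ᵥ x = x}
  add_mem' := by
    intro x y hx hy g hg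
    rw [Matrix.mulVec_add, hx g hg, hy g hg]
  zero_mem' := by
    intro g _
    rw [Matrix.mulVec_zero]
  smul_mem' := by
    intro c x hx g hg
    rw [Matrix.mulVec_smul, hx g hg]

/-- `f` is the polynomial `det (1 - g T)` of `g` on the invariants of the inertia group at `Q`: if
`A` is the matrix of `g` with respect to a basis `b` of the invariants then `f = det (1 - A T)`. -/
def IsLocalFactor {F : Type} [Field F] {n : ℕ} (ρ : AbsGal K →* GL (Fin n) F)
    (Q : Ideal (𝓞 (AlgebraicClosure K))) (g : AbsGal K) (f : F[X]) : Prop :=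
  ∃ (m : ℕ) (b : Module.Basis (Fin m) F (invariants ρ Q)) (A : Matrix (Fin m) (Fin m) F),
    (∀ j, mat ρ g *ᵥ (b j : Fin n → F) = ∑ i, A i j • (b i : Fin n → F)) ∧
    f = (1 - (X : F[X]) • A.map C).det

/-- The representation is semisimple: every stable subspace has a stable complement. -/
def IsSemisimple {F : Type} [Field F] {n : ℕ} (ρ : AbsGal K →* GL (Fin n) F) : Prop :=
  ∀ S : Submodule F (Fin n → F), (∀ g, ∀ x ∈ S, mat ρ g *ᵥ x ∈ S) →
    ∃ T : Submodule F (Fin n → F), (∀ g, ∀ x ∈ T, mat ρ g *ᵥ x ∈ T) ∧ IsCompl S T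

/-- The local behaviour of the family `W`, of weight `w`, is as expected at the ideal `Q` above the
place `v`, and inertia acts unipotently over the field fixed by `U`. -/
structure KnownAt [NumberField K] {m : ℕ}
    (W : ∀ (ℓ : ℕ) [Fact ℓ.Prime], AbsGal K →* GL (Fin m) ℚ_[ℓ]) (w : ℕ)
    (v : HeightOneSpectrum (𝓞 K)) (Q : Ideal (𝓞 (AlgebraicClosure K)))
    (U : Subgroup (AbsGal K)) : Prop where
  normal : U.Normal
  isOpen : IsOpen (U : Set (AbsGal K))
  /-- the inertia group in `U` acts unipotently -/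
  unipotent : ∀ (ℓ : ℕ) [Fact ℓ.Prime], (ℓ : 𝓞 K) ∉ v.asIdeal → ∀ g ∈ U, InInertia Q g →
    IsNilpotent (mat (W ℓ) g - 1)
  /-- the traces of the elements of the Weil group of positive degree -/
  traces : ∃ t : AbsGal K → ℚ, ∀ (ℓ : ℕ) [Fact ℓ.Prime], (ℓ : 𝓞 K) ∉ v.asIdeal →
    ∀ k : ℕ, 1 ≤ k → ∀ g, FrobeniusAt Q (Ideal.absNorm v.asIdeal ^ k) g⁻¹ →
      (mat (W ℓ) g).trace = (t g : ℚ_[ℓ])
  /-- the geometric Frobenius elements are integral -/
  integral : ∀ (ℓ : ℕ) [Fact ℓ.Prime], (ℓ : 𝓞 K) ∉ v.asIdeal →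
    ∀ g, FrobeniusAt Q (Ideal.absNorm v.asIdeal) g⁻¹ →
      ∃ f : ℤ[X], f.Monic ∧ aeval (mat (W ℓ) g) f = 0
  /-- the weights on the invariants of the inertia group in `U` are at most `w` -/
  upper : ∀ (ℓ : ℕ) [Fact ℓ.Prime], (ℓ : 𝓞 K) ∉ v.asIdeal → ∀ e : ℚ_[ℓ] →+* ℂ,
    ∀ g, FrobeniusAt Q (Ideal.absNorm v.asIdeal) g⁻¹ → ∀ (z : ℂ) (x : Fin m → ℂ), x ≠ 0 →
      (∀ h ∈ U, InInertia Q h → (mat (W ℓ) h).map e *ᵥ x = x) →
      (mat (W ℓ) g).map e *ᵥ x = z • x → ‖z‖ ^ 2 ≤ (Ideal.absNorm v.asIdeal : ℝ) ^ w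
  /-- the weights on the coinvariants of the inertia group in `U` are at least `w` -/
  lower : ∀ (ℓ : ℕ) [Fact ℓ.Prime], (ℓ : 𝓞 K) ∉ v.asIdeal → ∀ e : ℚ_[ℓ] →+* ℂ,
    ∀ g, FrobeniusAt Q (Ideal.absNorm v.asIdeal) g⁻¹ → ∀ (z : ℂ) (x : Fin m → ℂ), x ≠ 0 →
      (∀ h ∈ U, InInertia Q h → x ᵥ* (mat (W ℓ) h).map e = x) →
      x ᵥ* (mat (W ℓ) g).map e = z • x → (Ideal.absNorm v.asIdeal : ℝ) ^ w ≤ ‖z‖ ^ 2

end

/-- **Transfer of local Euler factors at places with monodromy.** -/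
theorem result {K : Type} [Field K] [NumberField K] {n m : ℕ}
    (V : ∀ (ℓ : ℕ) [Fact ℓ.Prime], AbsGal K →* GL (Fin n) ℚ_[ℓ])
    (hV : ∀ (ℓ : ℕ) [Fact ℓ.Prime], Continuous (V ℓ))
    (W : ∀ (ℓ : ℕ) [Fact ℓ.Prime], AbsGal K →* GL (Fin m) ℚ_[ℓ])
    (hW : ∀ (ℓ : ℕ) [Fact ℓ.Prime], Continuous (W ℓ))
    (hWs : ∀ (ℓ : ℕ) [Fact ℓ.Prime], IsSemisimple (W ℓ)) (w : ℕ)
    -- the exceptional places, and the differences of the traces at the other places
    (B : Set (HeightOneSpectrum (𝓞 K))) (hB : B.Finite) (a : HeightOneSpectrum (𝓞 K) → ℚ)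
    (htr : ∀ (ℓ : ℕ) [Fact ℓ.Prime], ∀ v, v ∉ B → (ℓ : 𝓞 K) ∉ v.asIdeal → ∀ Q, LiesAbove v Q →
      ∀ g, FrobeniusAt Q (Ideal.absNorm v.asIdeal) g →
        (mat (V ℓ) g⁻¹).trace - (mat (W ℓ) g⁻¹).trace = (a v : ℚ_[ℓ]))
    (C : ℝ) (hC : ∀ v, v ∉ B → (a v : ℝ) ^ 2 ≤ C * (Ideal.absNorm v.asIdeal : ℝ) ^ w)
    -- most differences are divisible, up to a bounded denominator
    (d : ℕ) (hd : 0 < d) (θ : ℝ) (hθ : θ * ((n : ℝ) ^ 2 + (m : ℝ) ^ 2) < 1)
    (hdiv : ∃ᶠ x : ℕ in atTop, ({v : HeightOneSpectrum (𝓞 K) | Ideal.absNorm v.asIdeal ≤ x ∧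
      ¬ ∃ c : ℤ, (d : ℚ) * a v ^ 2 = (Ideal.absNorm v.asIdeal : ℚ) ^ w * c}.ncard : ℝ) ≤
        θ * Nat.primeCounting x) :
    ∃ U : Subgroup (AbsGal K), U.Normal ∧ IsOpen (U : Set (AbsGal K)) ∧
      ∀ (v : HeightOneSpectrum (𝓞 K)) (Q : Ideal (𝓞 (AlgebraicClosure K))) (U₀ : Subgroup (AbsGal K)),
        LiesAbove v Q → KnownAt W w v Q U₀ →
        (∀ (ℓ : ℕ) [Fact ℓ.Prime], (ℓ : 𝓞 K) ∉ v.asIdeal → ∀ g ∈ U ⊓ U₀, InInertia Q g →
          IsNilpotent (mat (V ℓ) g - 1)) ∧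
        ∀ g, FrobeniusAt Q (Ideal.absNorm v.asIdeal) g⁻¹ →
          ∃ P : ℤ[X], ∀ (ℓ : ℕ) [Fact ℓ.Prime], (ℓ : 𝓞 K) ∉ v.asIdeal → ∀ f : ℚ_[ℓ][X],
            IsLocalFactor (V ℓ) Q g f ↔ f = P.map (Int.castRingHom ℚ_[ℓ]) := by
  obtain ⟨u, φ, U, hw, hUn, hUo, hU, hφ⟩ := Pool.Agent.R401.Tr7.family V hV W hW B hB a (w : ℤ) (by
      rintro ℓ _ v hv hℓ g ⟨Q, hQ, hQv, hg⟩
      exact htr ℓ v hv hℓ Q ⟨hQ, hQv⟩ g hg) C (by simpa using hC) θ hθ hd (by
      refine (hdiv.and_eventually (Nat.tendsto_primeCounting.eventually_gt_atTop 0)).mono ?_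
      rintro N ⟨h1, h3⟩
      have h4 : (0 : ℝ) < (Nat.primeCounting N : ℝ) := by exact_mod_cast h3
      unfold Pool.Agent.W401.Cheb.dens
      rw [div_le_iff₀ h4]
      simp only [zpow_natCast]
      exact h1)
  refine ⟨U, hUn, hUo, ?_⟩
  intro v Q U₀ hQ hk
  have hq : 2 ≤ Ideal.absNorm v.asIdeal := by
    have h0 : Ideal.absNorm v.asIdeal ≠ 0 := fun h0 => v.ne_bot (Ideal.absNorm_eq_zero_iff.1 h0)
    have h1 : Ideal.absNorm v.asIdeal ≠ 1 := fun h1 =>
      v.isPrime.ne_top (Ideal.absNorm_eq_one_iff.1 h1)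
    omega
  have hI : ∀ (ℓ : ℕ) [Fact ℓ.Prime] (x : Fin n → ℚ_[ℓ]), x ∈ invariants (V ℓ) Q ↔
      ∀ τ, Pool.Agent.W569.FM.InInertia Q τ → Pool.Agent.R401.Img.mt (V ℓ) τ *ᵥ x = x :=
    fun ℓ _ x => Iff.rfl
  have hQℓ : ∀ ℓ : ℕ, (ℓ : 𝓞 (AlgebraicClosure K)) ∈ Q ↔ (ℓ : 𝓞 K) ∈ v.asIdeal := by
    intro ℓ
    rw [← hQ.2, Ideal.mem_comap, map_natCast]
  have hQm := hQ.1
  obtain ⟨σ, hσ⟩ := Pool.Agent.W352.ChAbs.exists_frob v Q hQ.2
  have hU₀n := hk.normal
  have hU₀o := hk.isOpen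
  have hinf : IsOpen ((U ⊓ U₀ : Subgroup (AbsGal K)) : Set (AbsGal K)) := by
    rw [Subgroup.coe_inf]
    exact hUo.inter hU₀o
  have hss : ∀ (ℓ : ℕ) [Fact ℓ.Prime],
      Pool.Agent.NH57.WM.SS (Set.range (Pool.Agent.NH57.WM.en (Pool.Agent.R401.Tr9.mh (W ℓ)))) := by
    intro ℓ _ S hS
    obtain ⟨T, hT, hST⟩ := hWs ℓ S fun g x hx => hS _ ⟨g, rfl⟩ x hx
    refine ⟨T, ?_, hST⟩
    rintro _ ⟨g, rfl⟩ x hx
    exact hT g x hx
  have hWu : ∀ (ℓ : ℕ) [Fact ℓ.Prime], (ℓ : 𝓞 (AlgebraicClosure K)) ∉ Q → ∀ τ ∈ U₀,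
      Pool.Agent.W569.FM.InInertia Q τ → IsNilpotent (Pool.Agent.R401.Img.mt (W ℓ) τ - 1) := by
    intro ℓ _ hℓ τ hτU hτ
    exact hk.unipotent ℓ (fun h' => hℓ ((hQℓ ℓ).2 h')) τ hτU hτ
  have hr : (0 : ℝ) < (Ideal.absNorm v.asIdeal : ℝ) ^ w := by
    have h1 : 0 < Ideal.absNorm v.asIdeal := by omega
    have h2 : (0 : ℝ) < (Ideal.absNorm v.asIdeal : ℝ) := by exact_mod_cast h1
    positivity
  refine ⟨?_, ?_⟩
  · intro ℓ _ hℓ g hg hgI
    exact Pool.Agent.NH57.WM.unipV (V ℓ) (W ℓ) u φ U hU (hφ ℓ) hQ.1 hσ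
      (fun h' => hℓ ((hQℓ ℓ).1 h')) (U ⊓ U₀) inf_le_left
      (fun τ hτU hτ => hWu ℓ (fun h' => hℓ ((hQℓ ℓ).1 h')) τ hτU.2 hτ) hg hgI
  · intro g hg
    obtain ⟨t, ht⟩ := hk.traces
    obtain ⟨P, hP⟩ := Pool.Agent.NH57.WM.loc V hV W u φ U hUn hUo hU hφ hQ.1 hq hg (U ⊓ U₀)
      inferInstance hinf inf_le_left
      (fun ℓ _ hℓ τ hτU hτ => hWu ℓ hℓ τ hτU.2 hτ)
      (fun ℓ _ _ => hss ℓ) hr
      (by
        intro h1
        rcases hw with h2 | h2
        · rw [← h2, zpow_natCast]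
        · exact absurd (h2 1) h1)
      (by
        intro h1
        rcases hw with h2 | h2
        · omega
        · exact absurd (h2 1) h1)
      t (fun ℓ _ hℓ k hk1 g hg => ht ℓ (fun h' => hℓ ((hQℓ ℓ).2 h')) k hk1 g hg)
      (fun ℓ _ hℓ e => Pool.Agent.NH57.WM.wle_of (W ℓ) (by omega) hg hr U₀ hU₀n hU₀o (hWu ℓ hℓ) e
        (fun z x hx0 hx hz => hk.upper ℓ (fun h' => hℓ ((hQℓ ℓ).2 h')) e _
          (by rwa [inv_inv]) z x hx0 hx hz))
      (fun ℓ _ hℓ e => Pool.Agent.NH57.WM.wge_of (W ℓ) (by omega) hg hr U₀ hU₀n hU₀o (hWu ℓ hℓ) e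
        (fun z x hx0 hx hz => hk.lower ℓ (fun h' => hℓ ((hQℓ ℓ).2 h')) e _
          (by rwa [inv_inv]) z x hx0 hx hz))
      (fun ℓ _ hℓ => hk.integral ℓ (fun h' => hℓ ((hQℓ ℓ).2 h')) _ (by rwa [inv_inv]))
      (fun ℓ _ => invariants (V ℓ) Q) hI
    rw [inv_inv] at hP
    refine ⟨P, ?_⟩
    intro ℓ _ hℓ f
    have hℓQ : (ℓ : 𝓞 (AlgebraicClosure K)) ∉ Q := fun h' => hℓ ((hQℓ ℓ).1 h')
    constructor
    · rintro ⟨m, b, A, hA, rfl⟩
      exact hP ℓ hℓQ m b A hA
    · rintro rfl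
      obtain ⟨m, b, A, hA⟩ := Pool.Agent.R401.Tr6.exists_basis (V ℓ) hq hg (hI ℓ)
      rw [inv_inv] at hA
      exact ⟨m, b, A, hA, (hP ℓ hℓQ m b A hA).symm⟩

end Pool.Agent.Results.MP_898f40_nt.MonodromyTransfer
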