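import Pool.Agent.NH52.WN.Fam

/-!
# Local Euler factors at places with multiplicity-free monodromy

Let `K` be a number field (for example `ℚ`), `v` a finite place of `K` with residue field of `q`
elements and `V_ℓ`, for all primes `ℓ` which are not below `v`, the `ℓ`-adic realisations `H^w(X ⊗ K̄, ℚ_ℓ)`
of a smooth projective variety. We use that

* `V_ℓ` has a nondegenerate `(-1)^w`-symmetric form with values in `ℚ_ℓ(-w)` (hard Lefschetz),
* a geometric Frobenius element at `v` acts with a characteristic polynomial in `ℤ[T]` up to a monic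
  factor: it is integral over `ℤ` (SGA 7, de Jong),
* the traces of the geometric Frobenius elements at `v` on the whole of `V_ℓ` are rational and do not
  depend on `ℓ` (known for the alternating sum over all degrees, by Ochiai and Saito, hence for `V_ℓ` if
  the other degrees are known, for example for complete intersections).

What is not known in general is that the local factor, the characteristic polynomial on the inertia
invariants, has coefficients in `ℤ` and does not depend on `ℓ`, and that its roots have weights at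
most `w`.

Here this is proved if the monodromy is *multiplicity-free* on the inertia invariants, for all `ℓ`: for
`M = ρ(g) - 1`, where `g` is an element of the inertia group which acts unipotently, whose fixed
vectors are fixed by an open subgroup of the inertia group (a generator of the tame inertia group of a
finite extension), the dimensions of the spaces `V_ℓ ^ {I_v} ∩ im M ^ b`, `b = 0, 1, 2, ...`, drop by at
most one in each step. This holds if `dim V_ℓ ^ {I_v} ≤ 1`, and if the sizes of the Jordan blocks of `M`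
are pairwise distinct. Nothing is assumed on the weights (weight monodromy conjecture) nor on the
ranks and the rationality of the monodromy operators for different `ℓ`. The local factor is a product

  `∏_{b ∈ B} (1 - ε_b q ^ ((w - b) / 2) T)`

with pairwise different `b ≤ w`, congruent to `w` modulo `2`, and signs `ε_b`; in particular it has
coefficients in `ℤ`, does not depend on `ℓ`, and the weights are `w - b ≤ w`.

Proof. The form induces perfect pairings on the inertia invariants of the primitive parts of the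
monodromy filtration. These are at most one-dimensional, so the square of the Frobenius
eigenvalue is `q ^ (w - b)`. The average over the finite quotient of the inertia group of the traces of
the geometric Frobenius elements on `V_ℓ` is the sum of `ε_b q ^ ((w - b) / 2) (1 + q + ... + q ^ b)`; this
number determines the set `B` and the signs, also for `q = 2`.
-/

set_option autoImplicit false

namespace Pool.Agent.Results.MP_898f40_nt.MultiplicityFreeMonodromy

open NumberField IsDedekindDomain Matrix Polynomial Module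

/-- the absolute Galois group of the field `K`, with the Krull topology -/
abbrev AbsGal (K : Type) [Field K] : Type := Gal(AlgebraicClosure K/K)

section
variable {K : Type} [Field K]

/-- `g` belongs to the inertia group at the ideal `Q` of the ring of all algebraic integers. -/
def InInertia (Q : Ideal (𝓞 (AlgebraicClosure K))) (g : AbsGal K) : Prop :=
  ∀ x : 𝓞 (AlgebraicClosure K), g • x - x ∈ Q

/-- `g` acts on the residue field of `Q` as `x ↦ x ^ q`. If the place below `Q` has a residue field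
with `q` elements these are the arithmetic Frobenius elements at `Q`. -/
def FrobeniusAt (Q : Ideal (𝓞 (AlgebraicClosure K))) (q : ℕ) (g : AbsGal K) : Prop :=
  ∀ x : 𝓞 (AlgebraicClosure K), g • x - x ^ q ∈ Q

/-- `Q` is a maximal ideal of the ring of all algebraic integers which lies above the finite
place `v` of `K`. -/
def LiesAbove [NumberField K] (v : HeightOneSpectrum (𝓞 K))
    (Q : Ideal (𝓞 (AlgebraicClosure K))) : Prop :=
  Q.IsMaximal ∧ Q.comap (algebraMap (𝓞 K) (𝓞 (AlgebraicClosure K))) = v.asIdeal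

/-- the matrix of `g` -/
noncomputable def mat {F : Type} [Field F] {n : ℕ} (ρ : AbsGal K →* GL (Fin n) F) (g : AbsGal K) :
    Matrix (Fin n) (Fin n) F :=
  (ρ g : GL (Fin n) F)

/-- the vectors which are fixed by the inertia group at `Q` -/
def invariants {F : Type} [Field F] {n : ℕ} (ρ : AbsGal K →* GL (Fin n) F)
    (Q : Ideal (𝓞 (AlgebraicClosure K))) : Submodule F (Fin n → F) where
  carrier := {x | ∀ g, InInertia Q g → mat ρ g *ᵥ x = x}
  add_mem' := by
    intro x y hx hy g hg
    rw [Matrix.mulVec_add, hx g hg, hy g hg]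
  zero_mem' := by
    intro g _
    rw [Matrix.mulVec_zero]
  smul_mem' := by
    intro c x hx g hg
    rw [Matrix.mulVec_smul, hx g hg]

/-- `f` is the polynomial `det (1 - g T)` of `g` on the invariants of the inertia group at `Q`: if
`A` is the matrix of `g` with respect to a basis `b` of the invariants then `f = det (1 - A T)`. -/
def IsLocalFactor {F : Type} [Field F] {n : ℕ} (ρ : AbsGal K →* GL (Fin n) F)
    (Q : Ideal (𝓞 (AlgebraicClosure K))) (g : AbsGal K) (f : F[X]) : Prop :=
  ∃ (m : ℕ) (b : Module.Basis (Fin m) F (invariants ρ Q)) (A : Matrix (Fin m) (Fin m) F),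
    (∀ j, mat ρ g *ᵥ (b j : Fin n → F) = ∑ i, A i j • (b i : Fin n → F)) ∧
    f = (1 - (X : F[X]) • A.map C).det

/-- There is a nondegenerate `(-1) ^ w`-symmetric form `J` which the geometric Frobenius elements
at `Q` multiply by `q ^ w`. -/
def IsPolarizable {F : Type} [Field F] {n : ℕ} (ρ : AbsGal K →* GL (Fin n) F) (w q : ℕ)
    (Q : Ideal (𝓞 (AlgebraicClosure K))) : Prop :=
  ∃ J : Matrix (Fin n) (Fin n) F, J.det ≠ 0 ∧ Jᵀ = (-1 : F) ^ w • J ∧
    ∀ g, FrobeniusAt Q q g⁻¹ → (mat ρ g)ᵀ * J * mat ρ g = (q : F) ^ w • J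

/-- the inertia invariants in the image of the `b`-th power of `M` -/
noncomputable def invariantsIn {F : Type} [Field F] {n : ℕ} (ρ : AbsGal K →* GL (Fin n) F)
    (Q : Ideal (𝓞 (AlgebraicClosure K))) (M : Matrix (Fin n) (Fin n) F) (b : ℕ) :
    Submodule F (Fin n → F) :=
  invariants ρ Q ⊓ LinearMap.range (Matrix.toLin' (M ^ b))

/-- The monodromy is multiplicity-free on the inertia invariants: there is an element `g` of the
inertia group which acts unipotently, whose fixed vectors are fixed by an open subgroup of the inertia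
group, and for `M = ρ(g) - 1` the dimensions of the spaces `V ^ I ∩ im M ^ b` drop by at most one in
each step. -/
def HasMultiplicityFreeMonodromy {F : Type} [Field F] {n : ℕ} (ρ : AbsGal K →* GL (Fin n) F)
    (Q : Ideal (𝓞 (AlgebraicClosure K))) : Prop :=
  ∃ (U : Subgroup (AbsGal K)) (g : AbsGal K), IsOpen (U : Set (AbsGal K)) ∧ InInertia Q g ∧
    IsNilpotent (mat ρ g - 1) ∧
    (∀ x, mat ρ g *ᵥ x = x → ∀ h ∈ U, InInertia Q h → mat ρ h *ᵥ x = x) ∧
    ∀ b : ℕ, finrank F (invariantsIn ρ Q (mat ρ g - 1) b) ≤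
      finrank F (invariantsIn ρ Q (mat ρ g - 1) (b + 1)) + 1

/-- The known properties of the family `V`, of weight `w`, at the ideal `Q` above the place `v`, and
multiplicity-free monodromy on the inertia invariants. -/
structure MultiplicityFreeAt [NumberField K] {n : ℕ}
    (V : ∀ (ℓ : ℕ) [Fact ℓ.Prime], AbsGal K →* GL (Fin n) ℚ_[ℓ]) (w : ℕ)
    (v : HeightOneSpectrum (𝓞 K)) (Q : Ideal (𝓞 (AlgebraicClosure K))) : Prop where
  /-- the polarization -/
  polarizable : ∀ (ℓ : ℕ) [Fact ℓ.Prime], (ℓ : 𝓞 K) ∉ v.asIdeal →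
    IsPolarizable (V ℓ) w (Ideal.absNorm v.asIdeal) Q
  /-- the traces of the geometric Frobenius elements -/
  traces : ∃ t : AbsGal K → ℚ, ∀ (ℓ : ℕ) [Fact ℓ.Prime], (ℓ : 𝓞 K) ∉ v.asIdeal →
    ∀ g, FrobeniusAt Q (Ideal.absNorm v.asIdeal) g⁻¹ → (mat (V ℓ) g).trace = (t g : ℚ_[ℓ])
  /-- the geometric Frobenius elements are integral -/
  integral : ∀ (ℓ : ℕ) [Fact ℓ.Prime], (ℓ : 𝓞 K) ∉ v.asIdeal →
    ∀ g, FrobeniusAt Q (Ideal.absNorm v.asIdeal) g⁻¹ →
      ∃ f : ℤ[X], f.Monic ∧ aeval (mat (V ℓ) g) f = 0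
  /-- the inertia invariants -/
  multiplicityFree : ∀ (ℓ : ℕ) [Fact ℓ.Prime], (ℓ : 𝓞 K) ∉ v.asIdeal →
    HasMultiplicityFreeMonodromy (V ℓ) Q

end

/-- the polynomial `∏_{b ∈ B} (1 - ε_b q ^ ((w - b) / 2) T)` -/
noncomputable def localPolynomial (q w : ℕ) (B : Finset ℕ) (ε : ℕ → ℤ) : ℤ[X] :=
  ∏ b ∈ B, (1 - C (ε b * (q : ℤ) ^ ((w - b) / 2)) * X)

/-- **Local Euler factors at places with multiplicity-free monodromy.** -/
theorem result {K : Type} [Field K] [NumberField K] {n : ℕ}
    (V : ∀ (ℓ : ℕ) [Fact ℓ.Prime], AbsGal K →* GL (Fin n) ℚ_[ℓ])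
    (hV : ∀ (ℓ : ℕ) [Fact ℓ.Prime], Continuous (V ℓ)) (w : ℕ)
    (v : HeightOneSpectrum (𝓞 K)) (Q : Ideal (𝓞 (AlgebraicClosure K))) (hQ : LiesAbove v Q)
    (h : MultiplicityFreeAt V w v Q) :
    ∃ (B : Finset ℕ) (ε : ℕ → ℤ), (∀ b ∈ B, b ≤ w ∧ b % 2 = w % 2 ∧ (ε b = 1 ∨ ε b = -1)) ∧
      ∀ (ℓ : ℕ) [Fact ℓ.Prime], (ℓ : 𝓞 K) ∉ v.asIdeal →
        ∀ g, FrobeniusAt Q (Ideal.absNorm v.asIdeal) g⁻¹ → ∀ f : ℚ_[ℓ][X],
          IsLocalFactor (V ℓ) Q g f ↔
            f = (localPolynomial (Ideal.absNorm v.asIdeal) w B ε).map (Int.castRingHom ℚ_[ℓ]) := by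
  have hq : 2 ≤ Ideal.absNorm v.asIdeal := by
    have h0 : Ideal.absNorm v.asIdeal ≠ 0 := fun h0 => v.ne_bot (Ideal.absNorm_eq_zero_iff.1 h0)
    have h1 : Ideal.absNorm v.asIdeal ≠ 1 := fun h1 =>
      v.isPrime.ne_top (Ideal.absNorm_eq_one_iff.1 h1)
    omega
  have hI : ∀ (ℓ : ℕ) [Fact ℓ.Prime] (x : Fin n → ℚ_[ℓ]), x ∈ invariants (V ℓ) Q ↔
      ∀ τ, Pool.Agent.W569.FM.InInertia Q τ → Pool.Agent.R401.Img.mt (V ℓ) τ *ᵥ x = x :=
    fun ℓ _ x => Iff.rfl
  have hQℓ : ∀ ℓ : ℕ, (ℓ : 𝓞 (AlgebraicClosure K)) ∉ Q → (ℓ : 𝓞 K) ∉ v.asIdeal := by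
    intro ℓ hℓ h'
    apply hℓ
    rw [← hQ.2, Ideal.mem_comap, map_natCast] at h'
    exact h'
  have hQm := hQ.1
  obtain ⟨σ, hσ⟩ := Pool.Agent.W352.ChAbs.exists_frob v Q hQ.2
  obtain ⟨t, ht⟩ := h.traces
  obtain ⟨d, hd, hcp⟩ := Pool.Agent.NH52.WN.fam V hV hQ.1 hq hσ w
    (fun ℓ _ hℓ => h.polarizable ℓ (hQℓ ℓ hℓ)) (fun ℓ _ => invariants (V ℓ) Q) hI
    (fun ℓ _ hℓ => by
      obtain ⟨U, g, h1, h2, h3, h4, h5⟩ := h.multiplicityFree ℓ (hQℓ ℓ hℓ)
      exact ⟨U, h1, g, h2, h3, h4, h5⟩)
    (fun ℓ _ hℓ => h.integral ℓ (hQℓ ℓ hℓ) _ (by rwa [inv_inv])) t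
    (fun ℓ _ hℓ => ht ℓ (hQℓ ℓ hℓ))
  refine ⟨Pool.Agent.NH52.WN.sup w d, d, fun b hb => hd b ((Pool.Agent.NH52.WN.mem_sup hd).1 hb), ?_⟩
  intro ℓ _ hℓ g hg f
  have hℓQ : (ℓ : 𝓞 (AlgebraicClosure K)) ∉ Q := by
    intro h'
    apply hℓ
    rw [← hQ.2, Ideal.mem_comap, map_natCast]
    exact h'
  obtain ⟨h1, m, b, A, hA⟩ := Pool.Agent.NH52.WN.fam_factor V hq hσ w
    (fun ℓ _ => invariants (V ℓ) Q) hI d (hcp ℓ hℓQ) hg
  constructor
  · rintro ⟨m, b, A, hA, rfl⟩
    exact h1 m b A hA
  · rintro rfl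
    exact ⟨m, b, A, hA, (h1 m b A hA).symm⟩

end Pool.Agent.Results.MP_898f40_nt.MultiplicityFreeMonodromy
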